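import Mathlib

set_option autoImplicit false

namespace Pool.Agent.H772Z.CG

open Polynomial

theorem alg_of_unram {A B : Type} [CommRing A] [IsDomain A] [CommRing B] [IsDomain B]
    [Algebra A B] [FaithfulSMul A B] [Algebra.FiniteType A B]
    (h : Algebra.FormallyUnramified A (FractionRing B)) : Algebra.IsAlgebraic A B := by
  let K := FractionRing A
  let L := FractionRing B
  have : FaithfulSMul A L := by
    rw [faithfulSMul_iff_algebraMap_injective, IsScalarTower.algebraMap_eq A B L]
    exact (IsFractionRing.injective B L).comp (FaithfulSMul.algebraMap_injective A B)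
  let : Algebra K L := FractionRing.liftAlgebra A L
  have : IsScalarTower A K L := FractionRing.isScalarTower_liftAlgebra A L
  have : Algebra.FormallyUnramified K L := Algebra.FormallyUnramified.of_restrictScalars A K L
  have : Algebra.EssFiniteType B L := Algebra.EssFiniteType.of_isLocalization L (nonZeroDivisors B)
  have : Algebra.EssFiniteType A L := Algebra.EssFiniteType.comp A B L
  have : Algebra.EssFiniteType K L := Algebra.EssFiniteType.of_comp A K L
  have : Algebra.IsSeparable K L := Algebra.FormallyUnramified.isSeparable K L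
  have : Algebra.IsAlgebraic K L := Algebra.IsSeparable.isAlgebraic K L
  have : Algebra.IsAlgebraic A K := IsLocalization.isAlgebraic K (nonZeroDivisors A)
  refine ⟨fun b => ?_⟩
  have h1 : IsAlgebraic K (algebraMap B L b) := Algebra.IsAlgebraic.isAlgebraic _
  have h2 : IsAlgebraic A (algebraMap B L b) := h1.restrictScalars A
  exact (isAlgebraic_algebraMap_iff (IsFractionRing.injective B L)).1 h2

theorem alg_of_fix {A T : Type} [CommRing A] [IsDomain A] [CommRing T] [IsDomain T]
    [Algebra A T] [FaithfulSMul A T] (x : A) (hx : ∀ b : T, 1 + algebraMap A T x * b ≠ 0)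
    (s : Set T) (hs : s.Finite)
    (h : ∀ a ∈ s, ∃ π : A, ∃ b ∈ Algebra.adjoin A s, a = algebraMap A T π + algebraMap A T x * b) :
    ∀ a ∈ s, IsAlgebraic A a := by
  set B := Algebra.adjoin A s with hB
  have : Algebra.FiniteType A B := Algebra.FiniteType.adjoin_of_finite hs
  have : FaithfulSMul A B := by
    rw [faithfulSMul_iff_algebraMap_injective]
    intro u v huv
    apply FaithfulSMul.algebraMap_injective A T
    have := congrArg (fun z : B => (z : T)) huv
    simpa using this
  let L := FractionRing B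
  let D := KaehlerDifferential.D A L
  let ι : B →+* L := algebraMap B L
  let s' : Set B := {b : B | (b : T) ∈ s}
  have hs' : s'.Finite := hs.preimage Subtype.val_injective.injOn
  let N : Submodule B (Ω[L⁄A]) := Submodule.span B ((fun b : B => D (ι b)) '' s')
  have hN : N.FG := Submodule.fg_span (hs'.image _)
  have hmem : ∀ b : B, D (ι b) ∈ N := by
    rintro ⟨b, hb⟩
    induction hb using Algebra.adjoin_induction with
    | mem y hy => exact Submodule.subset_span ⟨_, hy, rfl⟩
    | algebraMap r =>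
      have : ι ⟨algebraMap A T r, Subalgebra.algebraMap_mem _ r⟩ = algebraMap A L r := by
        rw [IsScalarTower.algebraMap_apply A B L]; rfl
      rw [this, Derivation.map_algebraMap]; exact N.zero_mem
    | add y z hy hz ihy ihz =>
      have : (⟨y + z, add_mem hy hz⟩ : B) = ⟨y, hy⟩ + ⟨z, hz⟩ := rfl
      rw [this, map_add, map_add]; exact N.add_mem ihy ihz
    | mul y z hy hz ihy ihz =>
      have : (⟨y * z, mul_mem hy hz⟩ : B) = ⟨y, hy⟩ * ⟨z, hz⟩ := rfl
      rw [this, map_mul, Derivation.leibniz]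
      refine N.add_mem ?_ ?_
      · have := N.smul_mem ⟨y, hy⟩ ihz
        rwa [← algebraMap_smul L] at this
      · have := N.smul_mem ⟨z, hz⟩ ihy
        rwa [← algebraMap_smul L] at this
  have hle : N ≤ (Ideal.span {algebraMap A B x}) • N := by
    refine Submodule.span_le.2 ?_
    rintro _ ⟨a, ha, rfl⟩
    obtain ⟨π, b, hb, e⟩ := h a ha
    have e' : a = algebraMap A B π + algebraMap A B x * ⟨b, hb⟩ := Subtype.ext e
    have : D (ι a) = algebraMap A B x • D (ι ⟨b, hb⟩) := by
      rw [e', map_add, map_mul, map_add, Derivation.leibniz]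
      have h1 : ∀ r : A, D (ι (algebraMap A B r)) = 0 := fun r => by
        have : ι (algebraMap A B r) = algebraMap A L r := (IsScalarTower.algebraMap_apply A B L r).symm
        rw [this, Derivation.map_algebraMap]
      rw [h1, h1, smul_zero, add_zero, zero_add]
      exact algebraMap_smul L _ _
    show D (ι a) ∈ _
    rw [this]
    exact Submodule.smul_mem_smul (Ideal.subset_span rfl) (hmem _)
  obtain ⟨r, hr1, hr⟩ := Submodule.exists_sub_one_mem_and_smul_eq_zero_of_fg_of_le_smul _ N hN hle
  have hr0 : r ≠ 0 := by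
    obtain ⟨c, hc⟩ := Ideal.mem_span_singleton'.1 hr1
    intro h0
    apply hx (c : T)
    have : (1 : B) + algebraMap A B x * c = 0 := by rw [h0] at hc; linear_combination hc
    have := congrArg (fun z : B => (z : T)) this
    simpa using this
  have hD : ∀ b : B, D (ι b) = 0 := by
    intro b
    have h1 : algebraMap B L r • D (ι b) = 0 := (algebraMap_smul L r _).trans (hr _ (hmem b))
    have h2 : algebraMap B L r ≠ 0 := (map_ne_zero_iff _ (IsFractionRing.injective B L)).2 hr0
    exact (smul_eq_zero.1 h1).resolve_left h2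
  have hDL : ∀ y : L, D y = 0 := by
    intro y
    obtain ⟨u, v, hv, rfl⟩ := IsFractionRing.div_surjective (A := B) y
    rw [div_eq_mul_inv, Derivation.leibniz, Derivation.leibniz_inv, hD, hD]
    simp
  have hU : Algebra.FormallyUnramified A L := by
    refine ⟨⟨fun u v => ?_⟩⟩
    have : ∀ w : Ω[L⁄A], w = 0 := by
      intro w
      have hw : w ∈ Submodule.span L (Set.range (KaehlerDifferential.D A L)) := by
        rw [KaehlerDifferential.span_range_derivation]; trivial
      have : Submodule.span L (Set.range (KaehlerDifferential.D A L)) ≤ ⊥ := by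
        refine Submodule.span_le.2 ?_
        rintro _ ⟨y, rfl⟩
        exact hDL y
      exact this hw
    rw [this u, this v]
  have halg := alg_of_unram hU
  intro a ha
  have := halg.isAlgebraic (⟨a, Algebra.subset_adjoin ha⟩ : B)
  exact (isAlgebraic_algebraMap_iff (R := A) (S := B) (A := T) Subtype.val_injective).2 this

/-- `x` is the image of a polynomial in `μ` whose value at `μ = 0` is `y`. -/
def Rel (x : RatFunc ℚ) (y : ℚ) : Prop :=
  ∃ r : ℚ[X], algebraMap ℚ[X] (RatFunc ℚ) r = x ∧ r.eval 0 = y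

theorem Rel.zero : Rel 0 0 := ⟨0, by simp, by simp⟩

theorem Rel.add {x x' : RatFunc ℚ} {y y' : ℚ} (h : Rel x y) (h' : Rel x' y') :
    Rel (x + x') (y + y') := by
  obtain ⟨r, h1, h2⟩ := h
  obtain ⟨r', h1', h2'⟩ := h'
  exact ⟨r + r', by simp [h1, h1'], by simp [h2, h2']⟩

theorem Rel.sum {ι : Type} (s : Finset ι) (x : ι → RatFunc ℚ) (y : ι → ℚ)
    (h : ∀ i ∈ s, Rel (x i) (y i)) : Rel (∑ i ∈ s, x i) (∑ i ∈ s, y i) := by
  classical
  induction s using Finset.induction_on with
  | empty => simpa using Rel.zero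
  | insert a s ha ih =>
    rw [Finset.sum_insert ha, Finset.sum_insert ha]
    exact (h a (by simp)).add (ih fun i hi => h i (by simp [hi]))

attribute [local instance] Polynomial.algebra in
theorem alg_reduce (F : PowerSeries (RatFunc ℚ)) (f : PowerSeries ℚ)
    (h : ∀ n, Rel (PowerSeries.coeff n F) (PowerSeries.coeff n f))
    (hF : IsAlgebraic (RatFunc ℚ)[X] F) : IsAlgebraic ℚ[X] f := by
  choose r hr1 hr2 using h
  let Φ : PowerSeries ℚ[X] := PowerSeries.mk r
  have hΦF : PowerSeries.map (algebraMap ℚ[X] (RatFunc ℚ)) Φ = F := by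
    ext n; simp [Φ, hr1]
  have hΦf : PowerSeries.map (evalRingHom (0 : ℚ)) Φ = f := by
    ext n; simp [Φ, hr2]
  have : IsScalarTower ℚ[X][X] (RatFunc ℚ)[X] (PowerSeries (RatFunc ℚ)) := by
    refine IsScalarTower.of_algebraMap_eq fun p => ?_
    ext n
    simp [RingHom.algebraMap_toAlgebra]
  have : Algebra.IsAlgebraic ℚ[X] (RatFunc ℚ) :=
    IsLocalization.isAlgebraic (RatFunc ℚ) (nonZeroDivisors ℚ[X])
  have h1 : IsAlgebraic ℚ[X][X] F := hF.restrictScalars _
  obtain ⟨P, hP0, hP⟩ := h1
  have hinj : Function.Injective (PowerSeries.map (algebraMap ℚ[X] (RatFunc ℚ))) :=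
    PowerSeries.map_injective _ (IsFractionRing.injective _ _)
  have key : ∀ Q : ℚ[X][X][X],
      PowerSeries.map (algebraMap ℚ[X] (RatFunc ℚ)) (aeval Φ Q) = aeval F Q := by
    intro Q
    rw [← hΦF, aeval_def, aeval_def, hom_eval₂]
    congr 1
  have hP' : aeval Φ P = 0 := by
    apply hinj; rw [key, hP, map_zero]
  have hnu : ¬ IsUnit (C (C (X : ℚ[X])) : ℚ[X][X][X]) := by
    rw [isUnit_C, isUnit_C]; exact not_isUnit_X
  obtain ⟨j, Q, hQ, e⟩ := WfDvdMonoid.max_power_factor' hP0 hnu
  have hQ' : aeval Φ Q = 0 := by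
    rw [e, map_mul, map_pow, aeval_C] at hP'
    refine (mul_eq_zero.1 hP').resolve_left (pow_ne_zero _ ?_)
    intro h0
    have := congrArg (PowerSeries.coeff 0) h0
    simp [RingHom.algebraMap_toAlgebra] at this
  refine ⟨Q.map (mapRingHom (evalRingHom (0 : ℚ))), ?_, ?_⟩
  · intro h0
    apply hQ
    rw [C_dvd_iff_dvd_coeff]
    intro i
    rw [C_dvd_iff_dvd_coeff]
    intro l
    rw [X_dvd_iff, coeff_zero_eq_eval_zero]
    have := congrArg (fun p => (p.coeff i).coeff l) h0
    simpa using this
  · have := congrArg (PowerSeries.map (evalRingHom (0 : ℚ))) hQ'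
    rw [map_zero, aeval_def, hom_eval₂, hΦf] at this
    rw [aeval_def, eval₂_map, ← this]
    congr 1
    ext n <;> simp [RingHom.algebraMap_toAlgebra]

/-- the lacunary series `∑ Y^(2^i)` -/
theorem not_alg_mahler (f : PowerSeries ℚ)
    (hf : PowerSeries.expand 2 two_ne_zero f = f - PowerSeries.X) : ¬ IsAlgebraic ℚ[X] f := by
  classical
  intro h
  have hex : ∃ d, ∃ P : ℚ[X][X], P ≠ 0 ∧ aeval f P = 0 ∧ P.natDegree = d := by
    obtain ⟨P, h0, h1⟩ := h
    exact ⟨_, P, h0, h1, rfl⟩
  obtain ⟨P, hP0, hP, hd⟩ := Nat.find_spec hex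
  have hmin : ∀ Q : ℚ[X][X], aeval f Q = 0 → Q.natDegree < P.natDegree → Q = 0 := by
    intro Q hQ hlt
    by_contra h0
    exact Nat.find_min hex (hd ▸ hlt) ⟨Q, h0, hQ, rfl⟩
  have hinj : Function.Injective (algebraMap ℚ[X] (PowerSeries ℚ)) := by
    intro u v huv
    apply Polynomial.coe_injective ℚ
    simpa [RingHom.algebraMap_toAlgebra] using huv
  have hd0 : 0 < P.natDegree := by
    by_contra h0
    have h1 : P.natDegree = 0 := by omega
    rw [eq_C_of_natDegree_eq_zero h1, aeval_C] at hP
    apply hP0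
    rw [eq_C_of_natDegree_eq_zero h1, hinj (hP.trans (map_zero _).symm), map_zero]
  let σ : ℚ[X] →+* ℚ[X] := (expand ℚ 2).toRingHom
  have hσ : Function.Injective σ := expand_injective two_pos
  have hσc : ∀ p : ℚ[X], PowerSeries.expand 2 two_ne_zero (algebraMap ℚ[X] (PowerSeries ℚ) p)
      = algebraMap ℚ[X] (PowerSeries ℚ) (σ p) := by
    intro p
    ext n
    simp [RingHom.algebraMap_toAlgebra, PowerSeries.coeff_expand, coeff_expand two_pos, σ]
  let Q : ℚ[X][X] := taylor (-X) (P.map σ)
  have hQ : aeval f Q = 0 := by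
    have h1 := congrArg (PowerSeries.expand 2 two_ne_zero).toRingHom hP
    rw [map_zero, aeval_def, hom_eval₂] at h1
    have h2 : aeval f Q = aeval (f - PowerSeries.X) (P.map σ) := by
      simp only [Q, taylor_apply, aeval_comp]
      congr 2
      simp [RingHom.algebraMap_toAlgebra, sub_eq_add_neg]
    rw [h2, ← hf, aeval_def, eval₂_map, ← h1]
    congr 1
    exact RingHom.ext fun p => (hσc p).symm
  have hQd : Q.natDegree = P.natDegree := by
    simp only [Q, natDegree_taylor, natDegree_map_eq_of_injective hσ]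
  have hQl : Q.leadingCoeff = σ P.leadingCoeff := by
    simp only [Q, leadingCoeff_taylor, leadingCoeff_map_of_injective hσ]
  obtain ⟨d, hdd⟩ : ∃ d, P.natDegree = d + 1 := ⟨P.natDegree - 1, by omega⟩
  set a := P.leadingCoeff with ha
  have ha0 : a ≠ 0 := leadingCoeff_ne_zero.2 hP0
  have hR : C (σ a) * P - C a * Q = 0 := by
    apply hmin
    · simp [hP, hQ]
    · rw [hdd, Nat.lt_succ_iff, natDegree_le_iff_coeff_eq_zero]
      intro N hN
      rw [coeff_sub, coeff_C_mul, coeff_C_mul]
      rcases Nat.lt_or_ge (d + 1) N with h1 | h1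
      · rw [coeff_eq_zero_of_natDegree_lt (by omega), coeff_eq_zero_of_natDegree_lt (by omega)]
        simp
      · have h2 : N = d + 1 := by omega
        have h3 : P.coeff N = a := by rw [h2, ← hdd]; rfl
        have h4 : Q.coeff N = σ a := by rw [h2, ← hdd, ← hQd]; exact hQl
        rw [h3, h4]; ring
  set b := P.coeff d with hb
  have hQc : Q.coeff d = σ b - ((d + 1 : ℕ) : ℚ[X]) * σ a * X := by
    simp only [Q, taylor_coeff]
    have hdeg : (hasseDeriv d (P.map σ)).natDegree < 2 := by
      have := natDegree_hasseDeriv_le (P.map σ) d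
      rw [natDegree_map_eq_of_injective hσ, hdd] at this
      omega
    rw [eval_eq_sum_range' hdeg]
    have h3 : P.coeff (1 + d) = a := by rw [add_comm, ← hdd]; rfl
    simp only [Finset.sum_range_succ, Finset.range_zero, Finset.sum_empty, hasseDeriv_coeff,
      coeff_map, h3, zero_add, Nat.choose_self, Nat.cast_one, one_mul, pow_zero, mul_one, pow_one]
    rw [add_comm 1 d, Nat.choose_succ_self_right]
    ring
  have hE : σ a * (b + ((d + 1 : ℕ) : ℚ[X]) * a * X) = a * σ b := by
    have := congrArg (fun p => p.coeff d) hR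
    simp only [coeff_sub, coeff_C_mul, coeff_zero, hQc] at this
    linear_combination this
  have hσa0 : σ a ≠ 0 := (map_ne_zero_iff _ hσ).2 ha0
  have hc0 : ((d + 1 : ℕ) : ℚ[X]) ≠ 0 := by exact_mod_cast Nat.succ_ne_zero d
  have hcd : ((d + 1 : ℕ) : ℚ[X]).natDegree = 0 := natDegree_natCast _
  have ht0 : ((d + 1 : ℕ) : ℚ[X]) * a * X ≠ 0 := mul_ne_zero (mul_ne_zero hc0 ha0) X_ne_zero
  have htd : (((d + 1 : ℕ) : ℚ[X]) * a * X).natDegree = a.natDegree + 1 := by
    rw [natDegree_mul (mul_ne_zero hc0 ha0) X_ne_zero, natDegree_mul hc0 ha0, hcd, natDegree_X]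
    omega
  have hσd : ∀ p : ℚ[X], (σ p).natDegree = p.natDegree * 2 := fun p => natDegree_expand 2 p
  by_cases hb0 : b = 0
  · rw [hb0, map_zero, mul_zero, zero_add] at hE
    exact mul_ne_zero hσa0 ht0 hE
  have hσb0 : σ b ≠ 0 := (map_ne_zero_iff _ hσ).2 hb0
  have hs0 : b + ((d + 1 : ℕ) : ℚ[X]) * a * X ≠ 0 := by
    intro h0
    rw [h0, mul_zero] at hE
    exact mul_ne_zero ha0 hσb0 hE.symm
  have hdeg := congrArg natDegree hE
  rw [natDegree_mul hσa0 hs0, natDegree_mul ha0 hσb0, hσd, hσd] at hdeg
  rcases lt_trichotomy b.natDegree (a.natDegree + 1) with h1 | h1 | h1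
  · rw [natDegree_add_eq_right_of_natDegree_lt (by omega), htd] at hdeg
    omega
  · have := natDegree_add_le b (((d + 1 : ℕ) : ℚ[X]) * a * X)
    rw [htd] at this
    omega
  · rw [natDegree_add_eq_left_of_natDegree_lt (by omega)] at hdeg
    omega

end Pool.Agent.H772Z.CG
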