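import Mathlib

set_option autoImplicit false

namespace Pool.Agent.H772Z.CG

/-- The word length `d(1,g)`: the least `n` such that `g` is a product of `n` elements of
`S ∪ S⁻¹`. -/
noncomputable def wordLength {G : Type} [Group G] (S : Finset G) (g : G) : ℕ :=
  sInf {n : ℕ | ∃ l : List G, l.length = n ∧ (∀ s ∈ l, s ∈ S ∨ s⁻¹ ∈ S) ∧ l.prod = g}

/-- The complete growth series `∑ g z^{d(1,g)}` in `ℤG[[z]]`. -/
noncomputable def completeGrowth {G : Type} [Group G] (S : Finset G) :
    PowerSeries (MonoidAlgebra ℤ G) :=
  PowerSeries.mk fun n => ∑ᶠ (g : G) (_ : wordLength S g = n), MonoidAlgebra.single g (1 : ℤ)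

/-- `A^* = 1 + A + A^2 + ⋯` for a series `A` with `A(0) = 0`: the coefficient of `z^n` is the sum
of the coefficients of `z^n` in `A^k`, `k ≤ n` (those with `k > n` vanish). -/
noncomputable def star {R : Type} [Ring R] (A : PowerSeries R) : PowerSeries R :=
  PowerSeries.mk fun n => ∑ k ∈ Finset.range (n + 1), PowerSeries.coeff n (A ^ k)

/-- The rational subring of `R[[z]]`: the smallest subring that contains the polynomials and is
closed under `A ↦ A^*` for `A(0) = 0`. -/
inductive IsRational {R : Type} [Ring R] : PowerSeries R → Prop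
  | poly (p : Polynomial R) : IsRational (p : PowerSeries R)
  | add {A B : PowerSeries R} : IsRational A → IsRational B → IsRational (A + B)
  | neg {A : PowerSeries R} : IsRational A → IsRational (-A)
  | mul {A B : PowerSeries R} : IsRational A → IsRational B → IsRational (A * B)
  | star {A : PowerSeries R} : IsRational A → PowerSeries.constantCoeff A = 0 →
      IsRational (star A)

/-- The value at `A = (A_j)` of the monomial `c_0 A_{j_1} c_1 ⋯ A_{j_k} c_k`, given as the pair
of `c_0` and the list of the `(j_m, c_m)`. -/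
noncomputable def monoEval {R : Type} [Ring R] {n : ℕ} (A : Fin n → PowerSeries R)
    (m : Polynomial R × List (Fin n × Polynomial R)) : PowerSeries R :=
  (m.1 : PowerSeries R) * (m.2.map fun x => A x.1 * (x.2 : PowerSeries R)).prod

/-- A monomial allowed in a proper system: `k ≥ 1` and some `c_m` is divisible by `z`. -/
def MonoProper {R : Type} [Ring R] {n : ℕ}
    (m : Polynomial R × List (Fin n × Polynomial R)) : Prop :=
  m.2 ≠ [] ∧ (Polynomial.X ∣ m.1 ∨ ∃ x ∈ m.2, Polynomial.X ∣ x.2)

/-- `F` is algebraic: it is the first component of a solution `A` in `R[[z]]` of a proper system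
`A_i = c_i + (sum of the monomials in the list M i)`. -/
def IsAlgebraicSeries {R : Type} [Ring R] (F : PowerSeries R) : Prop :=
  ∃ (n : ℕ) (c : Fin (n + 1) → Polynomial R)
    (M : Fin (n + 1) → List (Polynomial R × List (Fin (n + 1) × Polynomial R)))
    (A : Fin (n + 1) → PowerSeries R),
    (∀ i, ∀ m ∈ M i, MonoProper m) ∧
    (∀ i, A i = (c i : PowerSeries R) + ((M i).map (monoEval A)).sum) ∧ A 0 = F

end Pool.Agent.H772Z.CG
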