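import Pool.Agent.H772Z.CG.Defs
import Pool.Agent.H772Z.CG.Alg

set_option autoImplicit false

namespace Pool.Agent.H772Z.CG

open Polynomial

section psi

variable {R : Type} [Ring R] {k : Type} [Field k] {I : Type} [Fintype I] [DecidableEq I]

/-- matrix entries of a series, rescaled. -/
noncomputable def Psi (ρ : R →+* Matrix I I k) (ν : k) :
    PowerSeries R →+* Matrix I I (PowerSeries k) where
  toFun F := Matrix.of fun i j => PowerSeries.mk fun n => ν ^ n * ρ (PowerSeries.coeff n F) i j
  map_one' := by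
    ext i j n
    simp only [Matrix.of_apply, PowerSeries.coeff_mk, PowerSeries.coeff_one, Matrix.one_apply]
    by_cases hn : n = 0 <;> by_cases hij : i = j <;>
      simp [hn, hij, Matrix.one_apply, PowerSeries.coeff_one]
  map_mul' F G := by
    ext i j n
    simp only [Matrix.of_apply, PowerSeries.coeff_mk, PowerSeries.coeff_mul, Matrix.mul_apply,
      map_sum, map_mul, Matrix.sum_apply, Finset.mul_sum]
    rw [Finset.sum_comm]
    refine Finset.sum_congr rfl fun l _ => Finset.sum_congr rfl fun p hp => ?_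
    rw [← Finset.HasAntidiagonal.mem_antidiagonal.1 hp]; ring
  map_zero' := by ext i j n; simp
  map_add' F G := by ext i j n; simp [mul_add]

theorem Psi_coeff (ρ : R →+* Matrix I I k) (ν : k) (F : PowerSeries R) (i j : I) (n : ℕ) :
    PowerSeries.coeff n (Psi ρ ν F i j) = ν ^ n * ρ (PowerSeries.coeff n F) i j := by
  simp [Psi]

theorem Psi_poly (ρ : R →+* Matrix I I k) (ν : k) (p : R[X]) (i j : I) :
    ∃ π : k[X], Psi ρ ν (p : PowerSeries R) i j = algebraMap k[X] (PowerSeries k) π := by
  induction p using Polynomial.induction_on' with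
  | add p q hp hq =>
    obtain ⟨π, hπ⟩ := hp
    obtain ⟨π', hπ'⟩ := hq
    exact ⟨π + π', by rw [Polynomial.coe_add, map_add, Matrix.add_apply, hπ, hπ', map_add]⟩
  | monomial n a =>
    refine ⟨monomial n (ν ^ n * ρ a i j), ?_⟩
    ext m
    rw [Psi_coeff]
    simp only [RingHom.algebraMap_toAlgebra, Polynomial.coeff_coe, coeff_monomial]
    by_cases h : n = m
    · simp [h]
    · simp [h, PowerSeries.coeff_monomial, Ne.symm h]

theorem Psi_X_mul (ρ : R →+* Matrix I I k) (ν : k) (F : PowerSeries R) (i j : I) :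
    Psi ρ ν (PowerSeries.X * F) i j = PowerSeries.X * (PowerSeries.C ν * Psi ρ ν F i j) := by
  ext n
  rcases n with _ | n
  · rw [Psi_coeff]; simp
  · rw [Psi_coeff, PowerSeries.coeff_succ_X_mul, PowerSeries.coeff_succ_X_mul,
      PowerSeries.coeff_C_mul, Psi_coeff]; ring

theorem alg_Psi (ρ : R →+* Matrix I I k) (ν : k) (F : PowerSeries R) (hF : IsAlgebraicSeries F)
    (i j : I) : IsAlgebraic k[X] (Psi ρ ν F i j) := by
  obtain ⟨n, c, M, A, hM, hA, rfl⟩ := hF
  let s : Set (PowerSeries k) := Set.range fun t : Fin (n + 1) × I × I => Psi ρ ν (A t.1) t.2.1 t.2.2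
  let B := Algebra.adjoin k[X] s
  let InB : PowerSeries R → Prop := fun G => ∀ i j, Psi ρ ν G i j ∈ B
  let XB : PowerSeries R → Prop := fun G => ∀ i j, ∃ b ∈ B, Psi ρ ν G i j = PowerSeries.X * b
  have in_mul : ∀ G H, InB G → InB H → InB (G * H) := by
    intro G H hG hH i j
    rw [map_mul, Matrix.mul_apply]
    exact B.sum_mem fun l _ => B.mul_mem (hG i l) (hH l j)
  have in_poly : ∀ p : R[X], InB p := by
    intro p i j
    obtain ⟨π, hπ⟩ := Psi_poly ρ ν p i j
    rw [hπ]; exact B.algebraMap_mem π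
  have in_A : ∀ l, InB (A l) := fun l i j => Algebra.subset_adjoin ⟨(l, i, j), rfl⟩
  have x_mul_l : ∀ G H, XB G → InB H → XB (G * H) := by
    intro G H hG hH i j
    choose b hb e using hG
    refine ⟨∑ l, b i l * Psi ρ ν H l j, B.sum_mem fun l _ => B.mul_mem (hb i l) (hH l j), ?_⟩
    rw [map_mul, Matrix.mul_apply, Finset.mul_sum]
    exact Finset.sum_congr rfl fun l _ => by rw [e, mul_assoc]
  have x_mul_r : ∀ G H, InB G → XB H → XB (G * H) := by
    intro G H hG hH i j
    choose b hb e using hH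
    refine ⟨∑ l, Psi ρ ν G i l * b l j, B.sum_mem fun l _ => B.mul_mem (hG i l) (hb l j), ?_⟩
    rw [map_mul, Matrix.mul_apply, Finset.mul_sum]
    exact Finset.sum_congr rfl fun l _ => by rw [e]; ring
  have x_add : ∀ G H, XB G → XB H → XB (G + H) := by
    intro G H hG hH i j
    obtain ⟨b, hb, e⟩ := hG i j
    obtain ⟨b', hb', e'⟩ := hH i j
    exact ⟨b + b', B.add_mem hb hb', by rw [map_add, Matrix.add_apply, e, e', mul_add]⟩
  have x_zero : XB 0 := fun i j => ⟨0, B.zero_mem, by simp⟩
  have x_poly : ∀ p : R[X], X ∣ p → XB p := by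
    rintro _ ⟨p, rfl⟩ i j
    refine ⟨PowerSeries.C ν * Psi ρ ν p i j, B.mul_mem ?_ (in_poly p i j), ?_⟩
    · have := B.algebraMap_mem (C ν)
      simpa [RingHom.algebraMap_toAlgebra] using this
    · rw [Polynomial.coe_mul, Polynomial.coe_X, Psi_X_mul]
  have in_list : ∀ l : List (Fin (n + 1) × R[X]),
      InB (l.map fun x => A x.1 * (x.2 : PowerSeries R)).prod := by
    intro l
    induction l with
    | nil => simpa using in_poly 1
    | cons x l ih =>
      rw [List.map_cons, List.prod_cons]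
      exact in_mul _ _ (in_mul _ _ (in_A _) (in_poly _)) ih
  have x_list : ∀ l : List (Fin (n + 1) × R[X]), (∃ x ∈ l, X ∣ x.2) →
      XB (l.map fun x => A x.1 * (x.2 : PowerSeries R)).prod := by
    intro l
    induction l with
    | nil => simp
    | cons x l ih =>
      rintro ⟨y, hy, hXy⟩
      rw [List.map_cons, List.prod_cons]
      rcases List.mem_cons.1 hy with rfl | hy
      · exact x_mul_l _ _ (x_mul_r _ _ (in_A _) (x_poly _ hXy)) (in_list l)
      · exact x_mul_r _ _ (in_mul _ _ (in_A _) (in_poly _)) (ih ⟨y, hy, hXy⟩)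
  have x_mono : ∀ m : R[X] × List (Fin (n + 1) × R[X]), MonoProper m → XB (monoEval A m) := by
    rintro m ⟨_, h | h⟩
    · exact x_mul_l _ _ (x_poly _ h) (in_list _)
    · exact x_mul_r _ _ (in_poly _) (x_list _ h)
  have x_sum : ∀ l : List (R[X] × List (Fin (n + 1) × R[X])), (∀ m ∈ l, MonoProper m) →
      XB (l.map (monoEval A)).sum := by
    intro l
    induction l with
    | nil => intro _; simpa using x_zero
    | cons m l ih =>
      intro h
      rw [List.map_cons, List.sum_cons]
      exact x_add _ _ (x_mono m (h m (by simp))) (ih fun m' hm' => h m' (by simp [hm']))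
  have : FaithfulSMul k[X] (PowerSeries k) := by
    rw [faithfulSMul_iff_algebraMap_injective]
    intro u v huv
    apply Polynomial.coe_injective k
    simpa [RingHom.algebraMap_toAlgebra] using huv
  have hX : algebraMap k[X] (PowerSeries k) X = PowerSeries.X := by
    simp [RingHom.algebraMap_toAlgebra]
  refine alg_of_fix (X : k[X]) ?_ s (Set.finite_range _) ?_ _ ⟨(0, i, j), rfl⟩
  · intro b h0
    have := congrArg PowerSeries.constantCoeff h0
    simp [hX] at this
  · rintro _ ⟨⟨l, i, j⟩, rfl⟩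
    obtain ⟨π, hπ⟩ := Psi_poly ρ ν (c l) i j
    obtain ⟨b, hb, e⟩ := x_sum (M l) (hM l) i j
    refine ⟨π, b, hb, ?_⟩
    simp only
    rw [hA l, map_add, Matrix.add_apply, hπ, e, hX]

end psi

section words

variable {G : Type} [Group G]

theorem exists_word (S : Finset G) (hS : Subgroup.closure (S : Set G) = ⊤) (g : G) :
    ∃ l : List G, l.length = wordLength S g ∧ (∀ s ∈ l, s ∈ S ∨ s⁻¹ ∈ S) ∧ l.prod = g := by
  have hne : {n : ℕ | ∃ l : List G, l.length = n ∧ (∀ s ∈ l, s ∈ S ∨ s⁻¹ ∈ S) ∧ l.prod = g}.Nonempty := by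
    have hg : g ∈ (Subgroup.closure (S : Set G)).toSubmonoid := by rw [hS]; trivial
    rw [Subgroup.closure_toSubmonoid] at hg
    obtain ⟨l, hl, e⟩ := Submonoid.exists_list_of_mem_closure hg
    exact ⟨l.length, l, rfl, fun s hs => by simpa using hl s hs, e⟩
  exact Nat.sInf_mem hne

theorem wordLength_le (S : Finset G) (l : List G) (hl : ∀ s ∈ l, s ∈ S ∨ s⁻¹ ∈ S) :
    wordLength S l.prod ≤ l.length :=
  Nat.sInf_le ⟨l, rfl, hl, rfl⟩

theorem sphere_finite (S : Finset G) (hS : Subgroup.closure (S : Set G) = ⊤) (n : ℕ) :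
    {g | wordLength S g = n}.Finite := by
  classical
  let T : Finset G := S ∪ S.image (·⁻¹)
  have h1 : {l : List T | l.length = n}.Finite := List.finite_length_eq T n
  refine (h1.image fun l => (l.map Subtype.val).prod).subset ?_
  intro g hg
  obtain ⟨l, h2, h3, h4⟩ := exists_word S hS g
  have h5 : ∀ s ∈ l, s ∈ T := by
    intro s hs
    rcases h3 s hs with h | h
    · exact Finset.mem_union_left _ h
    · exact Finset.mem_union_right _ (Finset.mem_image.2 ⟨_, h, inv_inv s⟩)
  refine ⟨l.pmap Subtype.mk h5, ?_, ?_⟩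
  · simp only [Set.mem_ofPred_eq, List.length_pmap]; rw [h2]; exact hg
  · simp [List.map_pmap, h4]

theorem coeff_completeGrowth (S : Finset G) (hS : Subgroup.closure (S : Set G) = ⊤) (n : ℕ) :
    PowerSeries.coeff n (completeGrowth S)
      = ∑ g ∈ (sphere_finite S hS n).toFinset, MonoidAlgebra.single g (1 : ℤ) := by
  rw [completeGrowth, PowerSeries.coeff_mk]
  exact finsum_mem_eq_finite_toFinset_sum _ (sphere_finite S hS n)

end words

section extract

variable {G : Type} [Group G] {I : Type} [Fintype I] [DecidableEq I]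

/-- the monomial representation attached to an action on `I × ℤ` commuting with translation -/
noncomputable def rho (π : G →* Equiv.Perm (I × ℤ))
    (hπ : ∀ g j h, π g (j, h) = ((π g (j, 0)).1, (π g (j, 0)).2 + h)) :
    G →* Matrix I I (RatFunc ℚ) where
  toFun g := Matrix.of fun i j =>
    if (π g (j, 0)).1 = i then (RatFunc.X : RatFunc ℚ) ^ (-(π g (j, 0)).2) else 0
  map_one' := by
    ext i j
    simp [Matrix.one_apply, eq_comm]
  map_mul' g h := by
    ext i j
    simp only [Matrix.of_apply, Matrix.mul_apply, map_mul, Equiv.Perm.mul_apply, mul_ite, mul_zero,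
      Finset.sum_ite_eq, Finset.mem_univ, if_true]
    have e : π g (π h (j, 0)) = _ := hπ g (π h (j, 0)).1 (π h (j, 0)).2
    rw [e]
    split_ifs
    · rw [← zpow_add₀ RatFunc.X_ne_zero]; congr 1; ring
    · simp

theorem extract (S : Finset G) (hS : Subgroup.closure (S : Set G) = ⊤)
    (π : G →* Equiv.Perm (I × ℤ))
    (hπ : ∀ g j h, π g (j, h) = ((π g (j, 0)).1, (π g (j, 0)).2 + h)) (c : ℕ)
    (hht : ∀ g j, (π g (j, 0)).2 ≤ c * wordLength S g)
    (hF : IsAlgebraicSeries (completeGrowth S)) (i j : I) :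
    IsAlgebraic ℚ[X] (PowerSeries.mk fun n : ℕ =>
      (({g | wordLength S g = n ∧ π g (j, 0) = (i, (c * n : ℤ))}.ncard : ℕ) : ℚ)) := by
  classical
  let ρ : MonoidAlgebra ℤ G →+* Matrix I I (RatFunc ℚ) :=
    (MonoidAlgebra.lift ℤ (Matrix I I (RatFunc ℚ)) G (rho π hπ)).toRingHom
  refine alg_reduce _ _ ?_ (alg_Psi ρ (RatFunc.X ^ c) _ hF i j)
  intro n
  rw [Psi_coeff, coeff_completeGrowth S hS, map_sum, Matrix.sum_apply, Finset.mul_sum,
    PowerSeries.coeff_mk]
  have e : {g | wordLength S g = n ∧ π g (j, 0) = (i, (c * n : ℤ))}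
      = ↑((sphere_finite S hS n).toFinset.filter fun g => π g (j, 0) = (i, (c * n : ℤ))) := by
    ext g; simp
  rw [e, Set.ncard_coe_finset, Finset.card_filter]
  push_cast
  refine Rel.sum _ _ _ fun g hg => ?_
  have hg' : wordLength S g = n := by simpa using hg
  have h1 : ρ (MonoidAlgebra.single g 1) i j =
      if (π g (j, 0)).1 = i then (RatFunc.X : RatFunc ℚ) ^ (-(π g (j, 0)).2) else 0 := by
    have : ρ (MonoidAlgebra.single g 1) = rho π hπ g := MonoidAlgebra.lift_of _ g
    rw [this]; rfl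
  rw [h1]
  have h2 := hht g j
  rw [hg'] at h2
  by_cases h3 : (π g (j, 0)).1 = i
  · obtain ⟨m, hm⟩ : ∃ m : ℕ, (m : ℤ) = c * n - (π g (j, 0)).2 :=
      ⟨(c * n - (π g (j, 0)).2).toNat, by omega⟩
    refine ⟨X ^ m, ?_, ?_⟩
    · rw [if_pos h3, map_pow, RatFunc.algebraMap_X, ← pow_mul, ← zpow_natCast, ← zpow_natCast,
        ← zpow_add₀ RatFunc.X_ne_zero, hm]
      push_cast; rfl
    · by_cases h4 : (π g (j, 0)).2 = c * n
      · have : m = 0 := by omega
        rw [this, if_pos (Prod.ext h3 h4)]; simp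
      · have : m ≠ 0 := by omega
        rw [if_neg (fun h => h4 (congrArg Prod.snd h))]; simp [this]
  · rw [if_neg h3, if_neg (fun h => h3 (congrArg Prod.fst h)), mul_zero]
    exact Rel.zero

end extract

end Pool.Agent.H772Z.CG
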