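import Mathlib

set_option autoImplicit false

namespace Pool.Agent.H772Z.CG

/-- the morphism `x ↦ a x` -/
def HH (w : List Bool) : List Bool := w.flatMap fun x => [false, x]

@[simp] theorem HH_nil : HH [] = [] := rfl
@[simp] theorem HH_cons (x : Bool) (w : List Bool) : HH (x :: w) = false :: x :: HH w := rfl
theorem HH_append (u v : List Bool) : HH (u ++ v) = HH u ++ HH v := by simp [HH]
theorem HH_length (w : List Bool) : (HH w).length = 2 * w.length := by
  induction w with
  | nil => rfl
  | cons x w ih => simp [ih]; ring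
theorem HH_replicate (m : ℕ) : HH (List.replicate m false) = List.replicate (2 * m) false := by
  induction m with
  | zero => rfl
  | succ m ih => rw [List.replicate_succ, HH_cons, ih]; rfl

/-- the prefixes of the fixed point -/
def WW : ℕ → List Bool
  | 0 => []
  | i + 1 => true :: HH (WW i)

theorem WW_length (i : ℕ) : (WW i).length + 1 = 2 ^ i := by
  induction i with
  | zero => rfl
  | succ i ih => rw [WW, List.length_cons, HH_length, pow_succ]; omega

theorem WW_succ (i : ℕ) :
    WW (i + 1) = WW i ++ (List.replicate (WW i).length false ++ [true]) := by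
  induction i with
  | zero => rfl
  | succ i ih =>
    have h1 : WW (i + 1 + 1) = true :: HH (WW (i + 1)) := rfl
    have h2 : (WW (i + 1)).length = 2 * (WW i).length + 1 := by
      rw [WW, List.length_cons, HH_length]
    rw [h1, h2]
    conv_lhs => rw [ih, HH_append, HH_append, HH_replicate]
    rw [List.replicate_succ']
    simp [WW]

theorem eq_WW (w w' : List Bool) (hw : w = w' ++ [true]) (h : w <+: true :: HH w) :
    ∃ j, w = WW j := by
  have key : ∀ i, (∃ j, w = WW j) ∨ WW i <+: w := by
    intro i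
    induction i with
    | zero => right; exact List.nil_prefix
    | succ i ih =>
      rcases ih with ih | ⟨t, ht⟩
      · exact Or.inl ih
      have h1 : WW (i + 1) <+: true :: HH w := by
        rw [WW, List.cons_prefix_cons, ← ht, HH_append]
        exact ⟨rfl, List.prefix_append _ _⟩
      rcases List.prefix_or_prefix_of_prefix h1 h with h2 | h2
      · exact Or.inr h2
      left
      rw [WW_succ, ← ht, List.prefix_append_right_inj] at h2
      rcases List.prefix_concat_iff.1 h2 with h3 | h3
      · exact ⟨i + 1, by rw [WW_succ, ← ht, h3]⟩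
      · rcases List.eq_nil_or_concat t with rfl | ⟨t', x, rfl⟩
        · exact ⟨i, by simpa using ht.symm⟩
        · exfalso
          have h4 : x ∈ List.replicate (WW i).length false := h3.subset (by simp)
          have h5 : x = false := List.eq_of_mem_replicate h4
          rw [hw, h5, List.concat_eq_append, ← List.append_assoc] at ht
          have := List.append_inj_right' ht rfl
          simp at this
  rcases key (w.length + 1) with h1 | h1
  · exact h1
  · exfalso
    have h2 := h1.length_le
    have h3 := WW_length (w.length + 1)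
    have h4 : w.length + 1 < 2 ^ (w.length + 1) := Nat.lt_two_pow_self
    omega

/-- the edges of the automaton: source, target, first label, second label -/
def edges : List (Fin 6 × Fin 6 × List Bool × Bool) :=
  [(0, 1, [], true), (1, 2, [], false), (2, 1, [false], false), (2, 1, [true], true),
   (2, 5, [true], true), (0, 3, [true], true), (3, 3, [false], false), (3, 3, [true], true),
   (3, 4, [], false), (4, 4, [], false), (4, 5, [], true)]

/-- labels of paths from a state to the final state `5` -/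
inductive Reach : Fin 6 → List Bool → List Bool → Prop
  | nil : Reach 5 [] []
  | cons (e : Fin 6 × Fin 6 × List Bool × Bool) (w v : List Bool) : e ∈ edges →
      Reach e.2.1 w v → Reach e.1 (e.2.2.1 ++ w) (e.2.2.2 :: v)

/-- invariant -/
def Inv (p : Fin 6) (w v : List Bool) : Prop :=
  (p = 1 → v = HH w ∧ ∃ w', w = w' ++ [true]) ∧
  (p = 2 → false :: v = HH w ∧ ∃ w', w = w' ++ [true]) ∧
  (p = 3 → w <+: v) ∧ (p = 4 → w = []) ∧ (p = 5 → w = [] ∧ v = [])

theorem Reach.inv {p : Fin 6} {w v : List Bool} (h : Reach p w v) : Inv p w v := by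
  induction h with
  | nil => simp [Inv]
  | cons e w v he _ ih =>
    simp only [edges, List.mem_cons, List.not_mem_nil, or_false] at he
    obtain ⟨i1, i2, i3, i4, i5⟩ := ih
    rcases he with rfl | rfl | rfl | rfl | rfl | rfl | rfl | rfl | rfl | rfl | rfl
    · simp [Inv]
    · simpa [Inv] using i2 rfl
    · obtain ⟨rfl, w', rfl⟩ := i1 rfl
      simpa [Inv] using ⟨false :: w', rfl⟩
    · obtain ⟨rfl, w', rfl⟩ := i1 rfl
      simpa [Inv] using ⟨true :: w', rfl⟩
    · obtain ⟨rfl, rfl⟩ := i5 rfl
      simp [Inv]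
    · simp [Inv]
    · simpa [Inv, List.cons_prefix_cons] using i3 rfl
    · simpa [Inv, List.cons_prefix_cons] using i3 rfl
    · simp [Inv, i4 rfl]
    · simp [Inv, i4 rfl]
    · simp [Inv, (i5 rfl).1]

theorem reach_one (w : List Bool) : Reach 1 (w ++ [true]) (HH (w ++ [true])) := by
  induction w with
  | nil =>
    exact Reach.cons (1, 2, [], false) _ _ (by decide)
      (Reach.cons (2, 5, [true], true) _ _ (by decide) Reach.nil)
  | cons x w ih =>
    cases x
    · exact Reach.cons (1, 2, [], false) _ _ (by decide)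
        (Reach.cons (2, 1, [false], false) _ _ (by decide) ih)
    · exact Reach.cons (1, 2, [], false) _ _ (by decide)
        (Reach.cons (2, 1, [true], true) _ _ (by decide) ih)

theorem reach_four (m : ℕ) : Reach 4 [] (List.replicate m false ++ [true]) := by
  induction m with
  | zero => exact Reach.cons (4, 5, [], true) _ _ (by decide) Reach.nil
  | succ m ih => exact Reach.cons (4, 4, [], false) _ _ (by decide) ih

theorem reach_three (w : List Bool) (m : ℕ) :
    Reach 3 w (w ++ (List.replicate (m + 1) false ++ [true])) := by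
  induction w with
  | nil => exact Reach.cons (3, 4, [], false) _ _ (by decide) (reach_four m)
  | cons x w ih =>
    cases x
    · exact Reach.cons (3, 3, [false], false) _ _ (by decide) ih
    · exact Reach.cons (3, 3, [true], true) _ _ (by decide) ih

theorem reach_zero (w : List Bool) (x : Bool) (v : List Bool) :
    Reach 0 w (x :: v) ↔ x = true ∧ (Reach 1 w v ∨ ∃ w', w = true :: w' ∧ Reach 3 w' v) := by
  constructor
  · intro h
    generalize hp : (0 : Fin 6) = p at h
    generalize hv : x :: v = v' at h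
    cases h with
    | nil => simp at hv
    | cons e w0 v0 he h0 =>
      simp only [edges, List.mem_cons, List.not_mem_nil, or_false] at he
      obtain ⟨h1, h2⟩ := List.cons.inj hv
      subst h2
      rcases he with rfl | rfl | rfl | rfl | rfl | rfl | rfl | rfl | rfl | rfl | rfl <;>
        first
        | exact absurd hp (by decide)
        | exact ⟨h1, Or.inl h0⟩
        | exact ⟨h1, Or.inr ⟨w0, rfl, h0⟩⟩
  · rintro ⟨rfl, h | ⟨w', rfl, h⟩⟩
    · exact Reach.cons (0, 1, [], true) _ _ (by decide) h
    · exact Reach.cons (0, 3, [true], true) _ _ (by decide) h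

/-- labels of the paths of length `n` -/
def TT (p : Fin 6) (n : ℕ) : Set (List Bool × List Bool) := {x | Reach p x.1 x.2 ∧ x.2.length = n}

theorem inter_iff (w v : List Bool) :
    (Reach 1 w v ∧ ∃ w', w = true :: w' ∧ Reach 3 w' v) ↔
      ∃ i, w = WW (i + 1) ∧ v = HH (WW (i + 1)) := by
  constructor
  · rintro ⟨h1, w', rfl, h3⟩
    obtain ⟨e1, w'', e2⟩ := h1.inv.1 rfl
    have e3 := h3.inv.2.2.1 rfl
    obtain ⟨j, hj⟩ := eq_WW _ _ e2 (by rw [← e1, List.cons_prefix_cons]; exact ⟨rfl, e3⟩)
    rcases j with _ | i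
    · simp [WW] at hj
    · exact ⟨i, hj, by rw [← hj, e1]⟩
  · rintro ⟨i, rfl, rfl⟩
    constructor
    · rw [WW_succ, ← List.append_assoc]; exact reach_one _
    · refine ⟨HH (WW i), rfl, ?_⟩
      have h1 := WW_succ (i + 1)
      have h2 : (WW (i + 1)).length = 2 * (WW i).length + 1 := by
        rw [WW, List.length_cons, HH_length]
      rw [h2] at h1
      have h3 : HH (WW (i + 1)) =
          HH (WW i) ++ (List.replicate (2 * (WW i).length + 1) false ++ [true]) :=
        (List.cons.inj h1).2
      rw [h3]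
      exact reach_three _ _

open Classical in
theorem count_step (n : ℕ) (h1 : (TT 1 n).Finite) (h3 : (TT 3 n).Finite) :
    (TT 0 (n + 1)).ncard + (if ∃ i, n + 2 = 2 ^ (i + 2) then 1 else 0)
      = (TT 1 n).ncard + (TT 3 n).ncard := by
  let f1 : List Bool × List Bool → List Bool × List Bool := fun x => (x.1, true :: x.2)
  let f3 : List Bool × List Bool → List Bool × List Bool := fun x => (true :: x.1, true :: x.2)
  have i1 : Function.Injective f1 := by
    rintro ⟨a, b⟩ ⟨c, d⟩ h; simpa [f1] using h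
  have i3 : Function.Injective f3 := by
    rintro ⟨a, b⟩ ⟨c, d⟩ h; simpa [f3] using h
  have e0 : TT 0 (n + 1) = f1 '' TT 1 n ∪ f3 '' TT 3 n := by
    ext ⟨w, v⟩
    constructor
    · rintro ⟨h, hl⟩
      rcases v with _ | ⟨x, v⟩
      · simp at hl
      obtain ⟨rfl, h' | ⟨w', rfl, h'⟩⟩ := (reach_zero _ _ _).1 h
      · exact Or.inl ⟨(w, v), ⟨h', by simpa using hl⟩, rfl⟩
      · exact Or.inr ⟨(w', v), ⟨h', by simpa using hl⟩, rfl⟩
    · rintro (⟨⟨w', v'⟩, ⟨h, hl⟩, e⟩ | ⟨⟨w', v'⟩, ⟨h, hl⟩, e⟩)
      · obtain ⟨rfl, rfl⟩ := Prod.mk.inj e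
        exact ⟨(reach_zero _ _ _).2 ⟨rfl, Or.inl h⟩, by simpa using hl⟩
      · obtain ⟨rfl, rfl⟩ := Prod.mk.inj e
        exact ⟨(reach_zero _ _ _).2 ⟨rfl, Or.inr ⟨w', rfl, h⟩⟩, by simpa using hl⟩
  have hlen : ∀ i, (HH (WW (i + 1))).length + 2 = 2 ^ (i + 2) := by
    intro i
    have := WW_length (i + 1)
    rw [HH_length, pow_succ 2 (i + 1)]; omega
  have e1 : ∀ x, x ∈ f1 '' TT 1 n ∩ f3 '' TT 3 n ↔
      ∃ i, n + 2 = 2 ^ (i + 2) ∧ x = (WW (i + 1), true :: HH (WW (i + 1))) := by
    intro x
    constructor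
    · rintro ⟨⟨⟨w, v⟩, ⟨h, hl⟩, rfl⟩, ⟨⟨w', v'⟩, ⟨h', _⟩, e⟩⟩
      obtain ⟨e1, e2⟩ := Prod.mk.inj e
      obtain rfl : v' = v := (List.cons.inj e2).2
      obtain ⟨i, hi1, hi2⟩ := (inter_iff w v').1 ⟨h, w', e1.symm, h'⟩
      refine ⟨i, ?_, by simp [f1, hi1, hi2]⟩
      rw [← hlen, ← hi2]; simp at hl; omega
    · rintro ⟨i, hi, rfl⟩
      obtain ⟨h, w', e, h'⟩ := (inter_iff _ _).2 ⟨i, rfl, rfl⟩
      have hl : (HH (WW (i + 1))).length = n := by have := hlen i; omega
      exact ⟨⟨(_, _), ⟨h, hl⟩, rfl⟩, ⟨(w', _), ⟨h', hl⟩, Prod.ext e.symm rfl⟩⟩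
  have e2 : (f1 '' TT 1 n ∩ f3 '' TT 3 n).ncard = if ∃ i, n + 2 = 2 ^ (i + 2) then 1 else 0 := by
    split_ifs with h
    · obtain ⟨i, hi⟩ := h
      rw [Set.ncard_eq_one]
      refine ⟨(WW (i + 1), true :: HH (WW (i + 1))), Set.ext fun x => ?_⟩
      rw [e1]
      constructor
      · rintro ⟨j, hj, rfl⟩
        have : i + 2 = j + 2 := Nat.pow_right_injective (le_refl 2) (hi.symm.trans hj)
        obtain rfl : i = j := by omega
        rfl
      · rintro rfl; exact ⟨i, hi, rfl⟩
    · rw [Set.eq_empty_of_forall_notMem (s := f1 '' TT 1 n ∩ f3 '' TT 3 n), Set.ncard_empty]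
      intro x hx
      obtain ⟨i, hi, _⟩ := (e1 x).1 hx
      exact h ⟨i, hi⟩
  rw [e0, ← e2, Set.ncard_union_add_ncard_inter _ _ (h1.image _) (h3.image _),
    Set.ncard_image_of_injective _ i1, Set.ncard_image_of_injective _ i3]

end Pool.Agent.H772Z.CG
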