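import Pool.Agent.H772Z.CG.Rat
import Pool.Agent.H772Z.CG.Words

set_option autoImplicit false

namespace Pool.Agent.H772Z.CG

open Polynomial

/-- free group of rank two -/
abbrev F2 : Type := FreeGroup Bool

/-- positive words -/
def posw (w : List Bool) : F2 := FreeGroup.mk (w.map fun x => (x, true))

theorem posw_append (u v : List Bool) : posw (u ++ v) = posw u * posw v := by
  simp [posw, FreeGroup.mul_mk]

theorem posw_nil : posw [] = 1 := rfl

theorem posw_cons (x : Bool) (v : List Bool) : posw (x :: v) = FreeGroup.of x * posw v :=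
  posw_append [x] v

theorem posw_toWord (w : List Bool) : (posw w).toWord = w.map fun x => (x, true) := by
  rw [posw, FreeGroup.toWord_mk]
  induction w with
  | nil => rfl
  | cons x w ih =>
    rw [List.map_cons, FreeGroup.reduce.cons, ih]
    cases w with
    | nil => rfl
    | cons y w => simp

theorem posw_injective : Function.Injective posw := by
  intro u v h
  have := congrArg FreeGroup.toWord h
  rw [posw_toWord, posw_toWord] at this
  exact List.map_injective_iff.2 (fun a b hab => (Prod.mk.inj hab).1) this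

/-- a prefix code -/
def cod : Bool → List Bool
  | false => [false, false]
  | true => [false, true, true, true, true, true, true, false]

theorem cod_injective (u : List Bool) : ∀ v : List Bool, u.flatMap cod = v.flatMap cod → u = v := by
  induction u with
  | nil =>
    intro v h
    rcases v with _ | ⟨y, v⟩
    · rfl
    · cases y <;> simp [cod] at h
  | cons x u ih =>
    intro v h
    rcases v with _ | ⟨y, v⟩
    · cases x <;> simp [cod] at h
    · cases x <;> cases y <;> simp only [List.flatMap_cons, cod, List.cons_append, List.nil_append,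
        List.cons.injEq, true_and, Bool.false_eq_true, Bool.true_eq_false, false_and] at h <;>
        rw [ih v h]

/-- encoded words -/
def enc (v : List Bool) : F2 := posw (v.flatMap cod)

theorem enc_cons (x : Bool) (v : List Bool) : enc (x :: v) = posw (cod x) * enc v := by
  rw [enc, List.flatMap_cons, posw_append]; rfl

theorem enc_injective : Function.Injective enc := fun u v h => cod_injective u v (posw_injective h)

/-- the letter `b` -/
def bb : F2 := FreeGroup.of true

/-- the generator attached to an edge -/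
def gen (e : Fin 6 × Fin 6 × List Bool × Bool) : F2 × F2 :=
  (posw e.2.2.1, bb ^ (e.1 : ℕ) * posw (cod e.2.2.2) * (bb ^ (e.2.1 : ℕ))⁻¹)

/-- the element attached to a path -/
def elt (p : Fin 6) (x : List Bool × List Bool) : F2 × F2 :=
  (posw x.1, bb ^ (p : ℕ) * enc x.2 * (bb ^ 5)⁻¹)

theorem gen_mul_elt (e : Fin 6 × Fin 6 × List Bool × Bool) (w v : List Bool) :
    gen e * elt e.2.1 (w, v) = elt e.1 (e.2.2.1 ++ w, e.2.2.2 :: v) := by
  refine Prod.ext ?_ ?_
  · simp [gen, elt, posw_append]
  · simp only [gen, elt, Prod.snd_mul, enc_cons]; group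

theorem elt_nil : elt 5 ([], []) = 1 := by
  refine Prod.ext rfl ?_
  simp [elt, enc, posw_nil]

theorem elt_injective (p : Fin 6) : Function.Injective (elt p) := by
  rintro ⟨w, v⟩ ⟨w', v'⟩ h
  obtain ⟨h1, h2⟩ := Prod.mk.inj h
  exact Prod.ext (posw_injective h1) (enc_injective (mul_left_cancel (mul_right_cancel h2)))

/-- second generating set -/
noncomputable def bigSet : Finset (F2 × F2) := stdSet Bool ∪ (edges.map gen).toFinset

theorem big_closure : Subgroup.closure (bigSet : Set (F2 × F2)) = ⊤ := by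
  rw [eq_top_iff, ← std_closure]
  exact Subgroup.closure_mono (by intro x hx; simp [bigSet]; exact Or.inl hx)

/-- action of `a` -/
def actA : Equiv.Perm (Fin 6 × ℤ) where
  toFun x := (x.1, x.2 + if x.1 = 0 then 1 else 0)
  invFun x := (x.1, x.2 - if x.1 = 0 then 1 else 0)
  left_inv x := by simp
  right_inv x := by simp

/-- action of `b` -/
def actB : Equiv.Perm (Fin 6 × ℤ) where
  toFun x := (x.1 + 1, x.2)
  invFun x := (x.1 - 1, x.2)
  left_inv x := by simp
  right_inv x := by simp

/-- translation -/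
def actT (h : ℤ) : Equiv.Perm (Fin 6 × ℤ) where
  toFun x := (x.1, x.2 + h)
  invFun x := (x.1, x.2 - h)
  left_inv x := by simp
  right_inv x := by simp

/-- action of the free group -/
def piF : F2 →* Equiv.Perm (Fin 6 × ℤ) := FreeGroup.lift fun x => if x then actB else actA

/-- action of the product -/
def piG : F2 × F2 →* Equiv.Perm (Fin 6 × ℤ) := piF.comp (MonoidHom.snd _ _)

theorem piF_comm (g : F2) (h : ℤ) : Commute (piF g) (actT h) := by
  induction g using FreeGroup.induction_on with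
  | C1 => simp
  | of x =>
    cases x
    · simp only [piF, FreeGroup.lift_apply_of]
      ext ⟨j, k⟩ <;> simp [actA, actT]
      ring
    · simp only [piF, FreeGroup.lift_apply_of]
      ext ⟨j, k⟩ <;> simp [actB, actT]
  | inv_of x hx => rw [map_inv]; exact hx.inv_left
  | mul x y hx hy => rw [map_mul]; exact hx.mul_left hy

theorem piG_eqv (g : F2 × F2) (j : Fin 6) (h : ℤ) :
    piG g (j, h) = ((piG g (j, 0)).1, (piG g (j, 0)).2 + h) := by
  have := congrArg (fun f : Equiv.Perm (Fin 6 × ℤ) => f (j, 0)) (piF_comm g.2 h).eq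
  simpa [actT, piG] using this

theorem piF_a : piF (FreeGroup.of false) = actA := by simp [piF]
theorem piF_b : piF (FreeGroup.of true) = actB := by simp [piF]

theorem piF_bpow (p j : Fin 6) (h : ℤ) : piF (bb ^ (p : ℕ)) (j, h) = (j + p, h) := by
  rw [map_pow, bb, piF_b]
  fin_cases p <;> simp [pow_succ, actB, add_assoc]

theorem piF_bpow_inv (p j : Fin 6) (h : ℤ) : piF (bb ^ (p : ℕ))⁻¹ (j, h) = (j - p, h) := by
  rw [map_inv, Equiv.Perm.inv_eq_iff_eq, piF_bpow]; simp

theorem piF_cod (x : Bool) (j : Fin 6) (h : ℤ) :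
    piF (posw (cod x)) (j, h) = (j, h + if j = 0 then 2 else 0) := by
  cases x
  · simp only [cod, posw_cons, posw_nil, map_mul, piF_a, map_one, mul_one, Equiv.Perm.mul_apply]
    by_cases hj : j = 0 <;> simp [actA, hj, add_assoc]
  · simp only [cod, posw_cons, posw_nil, map_mul, piF_a, piF_b, map_one, mul_one,
      Equiv.Perm.mul_apply]
    fin_cases j <;> simp [actA, actB, add_assoc]

theorem piG_gen (e : Fin 6 × Fin 6 × List Bool × Bool) (j : Fin 6) (h : ℤ) :
    piG (gen e) (j, h) = (j - e.2.1 + e.1, h + if j = e.2.1 then 2 else 0) := by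
  have : piG (gen e) = piF (bb ^ (e.1 : ℕ)) * piF (posw (cod e.2.2.2)) * piF (bb ^ (e.2.1 : ℕ))⁻¹ := by
    simp [piG, gen]
  rw [this, Equiv.Perm.mul_apply, Equiv.Perm.mul_apply, piF_bpow_inv, piF_cod, piF_bpow]
  simp [sub_eq_zero]

theorem piG_gen_inv (e : Fin 6 × Fin 6 × List Bool × Bool) (j : Fin 6) :
    (piG (gen e)⁻¹ (j, 0)).2 ≤ 0 := by
  have : piG (gen e)⁻¹ (j, 0) = (j - e.1 + e.2.1, - if j = e.1 then 2 else 0) := by
    rw [map_inv, Equiv.Perm.inv_eq_iff_eq, piG_gen]
    by_cases hj : j = e.1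
    · simp [hj]
    · simp [hj, sub_eq_zero]
  rw [this]
  split_ifs <;> simp

theorem piG_std (s : F2 × F2) (hs : s ∈ stdSet Bool) (j : Fin 6) :
    (piG s (j, 0)).2 ≤ 1 ∧ (piG s⁻¹ (j, 0)).2 ≤ 1 := by
  rcases Finset.mem_union.1 hs with h | h
  · obtain ⟨a, _, rfl⟩ := Finset.mem_image.1 h
    simp [piG]
  · obtain ⟨a, _, rfl⟩ := Finset.mem_image.1 h
    cases a
    · have h1 : piG (1, FreeGroup.of false) = actA := piF_a
      rw [map_inv, h1, Equiv.Perm.inv_def]
      simp only [actA, Equiv.coe_fn_mk, Equiv.coe_fn_symm_mk]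
      split_ifs <;> simp
    · have h1 : piG (1, FreeGroup.of true) = actB := piF_b
      rw [map_inv, h1, Equiv.Perm.inv_def]
      simp [actB]

theorem gen_step (s : F2 × F2) (hs : s ∈ bigSet ∨ s⁻¹ ∈ bigSet) (j : Fin 6) :
    (piG s (j, 0)).2 ≤ 2 ∧ ((piG s (j, 0)).2 = 2 →
      ∃ e ∈ edges, s = gen e ∧ j = e.2.1 ∧ (piG s (j, 0)).1 = e.1) := by
  rcases hs with hs | hs
  · rcases Finset.mem_union.1 hs with h | h
    · have := (piG_std s h j).1
      exact ⟨by omega, fun h2 => by omega⟩
    · obtain ⟨e, he, rfl⟩ := List.mem_map.1 (List.mem_toFinset.1 h)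
      rw [piG_gen]
      by_cases hj : j = e.2.1
      · exact ⟨by simp [hj], fun _ => ⟨e, he, rfl, hj, by simp [hj]⟩⟩
      · simp [hj]
  · rcases Finset.mem_union.1 hs with h | h
    · have := (piG_std _ h j).2
      rw [inv_inv] at this
      exact ⟨by omega, fun h2 => by omega⟩
    · obtain ⟨e, he, e'⟩ := List.mem_map.1 (List.mem_toFinset.1 h)
      have := piG_gen_inv e j
      rw [e', inv_inv] at this
      exact ⟨by omega, fun h2 => by omega⟩

theorem word_height (l : List (F2 × F2)) (hl : ∀ s ∈ l, s ∈ bigSet ∨ s⁻¹ ∈ bigSet) (j : Fin 6) :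
    (piG l.prod (j, 0)).2 ≤ 2 * l.length ∧ (j = 5 → (piG l.prod (j, 0)).2 = 2 * l.length →
      ∃ x ∈ TT (piG l.prod (j, 0)).1 l.length, l.prod = elt (piG l.prod (j, 0)).1 x) := by
  induction l with
  | nil =>
    refine ⟨by simp, fun hj _ => ⟨([], []), ?_, ?_⟩⟩
    · simp only [List.prod_nil, map_one, Equiv.Perm.coe_one, id_eq, hj]
      exact ⟨Reach.nil, rfl⟩
    · simp only [List.prod_nil, map_one, Equiv.Perm.coe_one, id_eq, hj, elt_nil]
  | cons s l ih =>
    obtain ⟨i1, i2⟩ := ih fun t ht => hl t (by simp [ht])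
    obtain ⟨s1, s2⟩ := gen_step s (hl s (by simp)) (piG l.prod (j, 0)).1
    have e : piG (s :: l).prod (j, 0) = ((piG s ((piG l.prod (j, 0)).1, 0)).1,
        (piG s ((piG l.prod (j, 0)).1, 0)).2 + (piG l.prod (j, 0)).2) := by
      rw [List.prod_cons, map_mul, Equiv.Perm.mul_apply]
      exact piG_eqv s _ _
    rw [e, List.length_cons]
    refine ⟨by push_cast; omega, fun hj h => ?_⟩
    push_cast at h
    obtain ⟨⟨w, v⟩, ⟨hx1, hx2⟩, hx3⟩ := i2 hj (by omega)
    obtain ⟨ed, he, rfl, e2, e3⟩ := s2 (by omega)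
    simp only [e3]
    rw [e2] at hx1 hx3
    refine ⟨(ed.2.2.1 ++ w, ed.2.2.2 :: v), ⟨Reach.cons ed w v he hx1, by simpa using hx2⟩, ?_⟩
    rw [List.prod_cons, hx3, gen_mul_elt]

theorem height_le (g : F2 × F2) (j : Fin 6) :
    (piG g (j, 0)).2 ≤ ((2 : ℕ) : ℤ) * wordLength bigSet g := by
  obtain ⟨l, h1, h2, h3⟩ := exists_word bigSet big_closure g
  have := (word_height l h2 j).1
  rw [h3, h1] at this
  exact this

theorem reach_word {p : Fin 6} {w v : List Bool} (h : Reach p w v) :
    (∃ l : List (F2 × F2), l.length = v.length ∧ (∀ s ∈ l, s ∈ bigSet ∨ s⁻¹ ∈ bigSet) ∧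
      l.prod = elt p (w, v)) ∧ piG (elt p (w, v)) (5, 0) = (p, 2 * (v.length : ℤ)) := by
  induction h with
  | nil => exact ⟨⟨[], rfl, by simp, elt_nil.symm⟩, by simp [elt_nil]⟩
  | cons e w v he _ ih =>
    obtain ⟨⟨l, h1, h2, h3⟩, h4⟩ := ih
    refine ⟨⟨gen e :: l, by simp [h1], ?_, by rw [List.prod_cons, h3, gen_mul_elt]⟩, ?_⟩
    · intro s hs
      rcases List.mem_cons.1 hs with rfl | hs
      · exact Or.inl (Finset.mem_union_right _ (List.mem_toFinset.2 (List.mem_map_of_mem he)))
      · exact h2 s hs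
    · rw [← gen_mul_elt, map_mul, Equiv.Perm.mul_apply, h4, piG_gen]
      simp; ring

theorem set_eq (p : Fin 6) (n : ℕ) :
    {g | wordLength bigSet g = n ∧ piG g (5, 0) = (p, (((2 : ℕ) : ℤ) * n : ℤ))} = elt p '' TT p n := by
  ext g
  constructor
  · rintro ⟨h1, h2⟩
    obtain ⟨l, e1, e2, e3⟩ := exists_word bigSet big_closure g
    have := (word_height l e2 5).2 rfl
    rw [e3, e1, h1, h2] at this
    obtain ⟨x, hx, e⟩ := this rfl
    exact ⟨x, hx, e.symm⟩
  · rintro ⟨⟨w, v⟩, ⟨h1, h2⟩, rfl⟩
    obtain ⟨⟨l, e1, e2, e3⟩, e4⟩ := reach_word h1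
    simp only at h2 e1 e3 e4
    rw [h2] at e4 e1
    refine ⟨?_, e4⟩
    have h3 := wordLength_le bigSet l e2
    have h4 := height_le (elt p (w, v)) 5
    rw [e3] at h3
    rw [e4] at h4
    push_cast at h4
    omega

theorem TT_finite (p : Fin 6) (n : ℕ) : (TT p n).Finite := by
  refine Set.Finite.of_finite_image (f := elt p) ?_ (elt_injective p).injOn
  rw [← set_eq]
  exact (sphere_finite bigSet big_closure n).subset fun g hg => hg.1

theorem big_not_algebraic : ¬ IsAlgebraicSeries (completeGrowth bigSet) := by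
  classical
  intro h
  let N : Fin 6 → PowerSeries ℚ := fun p => PowerSeries.mk fun n => ((TT p n).ncard : ℚ)
  have hN : ∀ p, IsAlgebraic ℚ[X] (N p) := by
    intro p
    have := extract bigSet big_closure piG piG_eqv 2 height_le h p 5
    simpa only [set_eq, Set.ncard_image_of_injective _ (elt_injective p)] using this
  let f : PowerSeries ℚ := PowerSeries.mk fun n => if ∃ i, n = 2 ^ i then 1 else 0
  have hf : PowerSeries.expand 2 two_ne_zero f = f - PowerSeries.X := by
    ext n
    rw [PowerSeries.coeff_expand, map_sub, PowerSeries.coeff_X]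
    simp only [f, PowerSeries.coeff_mk]
    by_cases h1 : n = 1
    · subst h1
      rw [if_neg (by norm_num), if_pos ⟨0, rfl⟩]; simp
    rw [if_neg h1, sub_zero]
    by_cases h2 : 2 ∣ n
    · obtain ⟨m, rfl⟩ := h2
      rw [if_pos (Dvd.intro m rfl), Nat.mul_div_cancel_left _ two_pos]
      refine if_congr ⟨?_, ?_⟩ rfl rfl
      · rintro ⟨i, rfl⟩; exact ⟨i + 1, by ring⟩
      · rintro ⟨i, hi⟩
        rcases i with _ | i
        · omega
        · exact ⟨i, by rw [pow_succ] at hi; omega⟩
    · rw [if_neg h2, if_neg]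
      rintro ⟨i, rfl⟩
      rcases i with _ | i
      · exact h1 rfl
      · exact h2 (Dvd.intro_left _ (pow_succ 2 i).symm)
  have hX : algebraMap ℚ[X] (PowerSeries ℚ) X = PowerSeries.X := by
    simp [RingHom.algebraMap_toAlgebra]
  have hC : ∀ c : ℚ, algebraMap ℚ[X] (PowerSeries ℚ) (C c) = PowerSeries.C c := by
    intro c; simp [RingHom.algebraMap_toAlgebra]
  have e : f = PowerSeries.X * (1 + PowerSeries.C ((TT 0 0).ncard : ℚ) - N 0
      + PowerSeries.X * (1 + N 1 + N 3)) := by
    ext n
    rcases n with _ | _ | n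
    · simp only [f, PowerSeries.coeff_mk]
      rw [if_neg (by rintro ⟨i, hi⟩; exact absurd hi.symm (pow_ne_zero _ two_ne_zero))]; simp
    · simp only [f, PowerSeries.coeff_mk]
      rw [if_pos ⟨0, rfl⟩, PowerSeries.coeff_succ_X_mul]
      simp [N]
    · rw [PowerSeries.coeff_succ_X_mul, map_add, PowerSeries.coeff_succ_X_mul]
      have h1 := count_step n (TT_finite _ _) (TT_finite _ _)
      have h2 : ((TT 0 (n + 1)).ncard : ℚ) + (if ∃ i, n + 2 = 2 ^ (i + 2) then 1 else 0)
          = (TT 1 n).ncard + (TT 3 n).ncard := by exact_mod_cast h1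
      simp only [f, N, PowerSeries.coeff_mk, map_add, map_sub, PowerSeries.coeff_one,
        PowerSeries.coeff_C, Nat.succ_ne_zero, if_false]
      by_cases h0 : n = 0
      · subst h0
        rw [if_neg (by rintro ⟨i, hi⟩; rw [pow_add] at hi; omega)] at h2
        rw [if_pos ⟨1, rfl⟩, if_pos rfl]; linarith
      · have h3 : (∃ i, n + 1 + 1 = 2 ^ i) ↔ ∃ i, n + 2 = 2 ^ (i + 2) := by
          constructor
          · rintro ⟨i, hi⟩
            rcases i with _ | _ | i
            · omega
            · omega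
            · exact ⟨i, hi⟩
          · rintro ⟨i, hi⟩; exact ⟨i + 2, hi⟩
        rw [if_neg h0, if_congr h3 rfl rfl]; linarith
  apply not_alg_mahler f hf
  rw [e]
  have aX : IsAlgebraic ℚ[X] (PowerSeries.X : PowerSeries ℚ) := hX ▸ isAlgebraic_algebraMap _
  have aC : IsAlgebraic ℚ[X] (PowerSeries.C ((TT 0 0).ncard : ℚ) : PowerSeries ℚ) :=
    hC _ ▸ isAlgebraic_algebraMap _
  exact aX.mul (((isAlgebraic_one.add aC).sub (hN 0)).add
    (aX.mul ((isAlgebraic_one.add (hN 1)).add (hN 3))))

end Pool.Agent.H772Z.CG
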