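import Pool.Agent.H772Z.CG.Extract

set_option autoImplicit false

namespace Pool.Agent.H772Z.CG

open PowerSeries

section star

variable {R : Type} [Ring R]

theorem coeff_pow_zero (A : PowerSeries R) (hA : constantCoeff A = 0) (k : ℕ) :
    ∀ m, m < k → coeff m (A ^ k) = 0 := by
  induction k with
  | zero => intro m hm; omega
  | succ k ih =>
    intro m hm
    rw [pow_succ, coeff_mul]
    refine Finset.sum_eq_zero fun p hp => ?_
    have h := Finset.HasAntidiagonal.mem_antidiagonal.1 hp
    by_cases h1 : p.1 < k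
    · rw [ih _ h1, zero_mul]
    · have : p.2 = 0 := by omega
      rw [this, coeff_zero_eq_constantCoeff_apply, hA, mul_zero]

theorem star_mul_one_sub (A : PowerSeries R) (hA : constantCoeff A = 0) :
    star A * (1 - A) = 1 := by
  ext n
  have h1 : ∀ m, m ≤ n → coeff m (star A) = coeff m (∑ k ∈ Finset.range (n + 1), A ^ k) := by
    intro m hm
    rw [star, coeff_mk, map_sum]
    refine Finset.sum_subset (Finset.range_subset_range.2 (by omega)) fun k _ hk => ?_
    exact coeff_pow_zero A hA k m (by simpa using hk)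
  have h2 : coeff n (star A * (1 - A)) = coeff n ((∑ k ∈ Finset.range (n + 1), A ^ k) * (1 - A)) := by
    rw [coeff_mul, coeff_mul]
    refine Finset.sum_congr rfl fun p hp => ?_
    have h := Finset.HasAntidiagonal.mem_antidiagonal.1 hp
    rw [h1 _ (by omega)]
  rw [h2, geom_sum_mul_neg, map_sub, coeff_pow_zero A hA _ _ (Nat.lt_succ_self n), sub_zero]

theorem IsRational.map {R' : Type} [Ring R'] (φ : R →+* R') {F : PowerSeries R}
    (h : IsRational F) : IsRational (PowerSeries.map φ F) := by
  induction h with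
  | poly p =>
    have : PowerSeries.map φ (p : PowerSeries R) = (p.map φ : Polynomial R') := by ext n; simp
    rw [this]; exact IsRational.poly _
  | add _ _ h1 h2 => rw [map_add]; exact h1.add h2
  | neg _ h1 => rw [map_neg]; exact h1.neg
  | mul _ _ h1 h2 => rw [map_mul]; exact h1.mul h2
  | @star A _ h0 h1 =>
    have : PowerSeries.map φ (CG.star A) = CG.star (PowerSeries.map φ A) := by
      ext n
      simp only [CG.star, coeff_map, coeff_mk, map_sum, ← map_pow]
    rw [this]
    refine h1.star ?_
    rw [← coeff_zero_eq_constantCoeff_apply, coeff_map, coeff_zero_eq_constantCoeff_apply, h0,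
      map_zero]

end star

/-- `F` is the series `∑ g z^(ℓ g)`. -/
def IsSer {G : Type} [Group G] (ℓ : G → ℕ) (F : PowerSeries (MonoidAlgebra ℤ G)) : Prop :=
  ∀ n g, (coeff n F).coeff g = if ℓ g = n then 1 else 0

theorem IsSer.unique {G : Type} [Group G] {ℓ : G → ℕ} {F F' : PowerSeries (MonoidAlgebra ℤ G)}
    (h : IsSer ℓ F) (h' : IsSer ℓ F') : F = F' := by
  ext n g
  rw [h, h']

theorem isSer_completeGrowth {G : Type} [Group G] (S : Finset G)
    (hS : Subgroup.closure (S : Set G) = ⊤) : IsSer (wordLength S) (completeGrowth S) := by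
  classical
  intro n g
  rw [coeff_completeGrowth S hS, MonoidAlgebra.coeff_sum, Finset.sum_apply']
  simp [Finsupp.single_apply]

section free

variable {α : Type} [DecidableEq α] [Fintype α]

omit [Fintype α] in
theorem norm_letter_mul (x y : α × Bool) (L : List (α × Bool)) (g : FreeGroup α)
    (hg : g.toWord = y :: L) :
    (FreeGroup.mk [x] * g).norm = if x = (y.1, !y.2) then L.length else L.length + 2 := by
  have h1 : (FreeGroup.mk [x] * g).toWord = FreeGroup.reduce (x :: g.toWord) := by
    conv_lhs => rw [← FreeGroup.mk_toWord (x := g), FreeGroup.mul_mk, FreeGroup.toWord_mk]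
    rfl
  rw [FreeGroup.norm, h1, FreeGroup.reduce.cons, FreeGroup.reduce_toWord, hg]
  by_cases h : x = (y.1, !y.2)
  · simp [h]
  · have : ¬ (x.1 = y.1 ∧ x.2 = !y.2) := fun h' => h (Prod.ext h'.1 h'.2)
    simp [h, this]

omit [Fintype α] in
theorem norm_letter (x : α × Bool) : (FreeGroup.mk [x]).norm = 1 := by
  simp [FreeGroup.norm, FreeGroup.toWord_mk]

theorem count_letters (g : FreeGroup α) (n : ℕ) :
    (∑ x : α × Bool, if (FreeGroup.mk [x] * g).norm = n then (1 : ℤ) else 0) =
      (if g.norm = n + 1 then 1 else 0)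
        + (2 * Fintype.card α - 1) * (if g.norm + 1 = n then 1 else 0)
        + (if g = 1 ∧ n = 1 then 1 else 0) := by
  rcases hg : g.toWord with _ | ⟨y, L⟩
  · have h1 : g = 1 := FreeGroup.toWord_eq_nil_iff.1 hg
    subst h1
    simp only [mul_one, norm_letter, FreeGroup.norm_one]
    by_cases hn : n = 1
    · subst hn; simp; ring
    · simp [hn, Ne.symm hn]
  · have h1 : g ≠ 1 := by rintro rfl; simp at hg
    have h2 : g.norm = L.length + 1 := by rw [FreeGroup.norm, hg]; rfl
    simp only [norm_letter_mul _ y L g hg, h1, false_and, if_false, add_zero, h2]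
    rw [← Finset.add_sum_erase _ _ (Finset.mem_univ (y.1, !y.2))]
    have h3 : ∀ x ∈ Finset.univ.erase (y.1, !y.2),
        (if (if x = (y.1, !y.2) then L.length else L.length + 2) = n then (1 : ℤ) else 0)
          = if L.length + 1 + 1 = n then 1 else 0 := by
      intro x hx
      rw [if_neg (Finset.ne_of_mem_erase hx)]
    rw [Finset.sum_congr rfl h3, Finset.sum_const, Finset.card_erase_of_mem (Finset.mem_univ _)]
    have h4 : 1 ≤ Fintype.card (α × Bool) := Fintype.card_pos_iff.2 ⟨y⟩
    rw [Finset.card_univ, nsmul_eq_mul, Nat.cast_sub h4]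
    simp only [if_true, Fintype.card_prod, Fintype.card_bool, add_left_inj]
    push_cast; ring

theorem free_rational (E : PowerSeries (MonoidAlgebra ℤ (FreeGroup α)))
    (hE : IsSer FreeGroup.norm E) : IsRational E := by
  let σ : MonoidAlgebra ℤ (FreeGroup α) :=
    ∑ x : α × Bool, MonoidAlgebra.single (FreeGroup.mk [x])⁻¹ 1
  let q : MonoidAlgebra ℤ (FreeGroup α) := MonoidAlgebra.single 1 (2 * Fintype.card α - 1)
  let A : PowerSeries (MonoidAlgebra ℤ (FreeGroup α)) := C σ * X - C q * X ^ 2
  have hA0 : constantCoeff A = 0 := by simp [A]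
  have hA : IsRational A := by
    have := IsRational.poly (Polynomial.C σ * Polynomial.X - Polynomial.C q * Polynomial.X ^ 2)
    rwa [← Polynomial.coeToPowerSeries.ringHom_apply, map_sub, map_mul, map_mul, map_pow,
      Polynomial.coeToPowerSeries.ringHom_apply, Polynomial.coeToPowerSeries.ringHom_apply,
      Polynomial.coeToPowerSeries.ringHom_apply, Polynomial.coe_C, Polynomial.coe_C,
      Polynomial.coe_X] at this
  have hP : IsRational (1 - X ^ 2 : PowerSeries (MonoidAlgebra ℤ (FreeGroup α))) := by
    have := IsRational.poly (1 - Polynomial.X ^ 2 : Polynomial (MonoidAlgebra ℤ (FreeGroup α)))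
    rwa [← Polynomial.coeToPowerSeries.ringHom_apply, map_sub, map_one, map_pow,
      Polynomial.coeToPowerSeries.ringHom_apply, Polynomial.coe_X] at this
  have hσ : ∀ n g, (σ * coeff n E).coeff g =
      (if g.norm = n + 1 then 1 else 0)
        + (2 * Fintype.card α - 1) * (if g.norm + 1 = n then 1 else 0)
        + (if g = 1 ∧ n = 1 then 1 else 0) := by
    intro n g
    rw [← count_letters, Finset.sum_mul, MonoidAlgebra.coeff_sum, Finset.sum_apply']
    refine Finset.sum_congr rfl fun x _ => ?_
    rw [MonoidAlgebra.coeff_single_mul_apply, inv_inv, one_mul, hE]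
  have hq : ∀ n g, (q * coeff n E).coeff g =
      (2 * Fintype.card α - 1) * (if g.norm = n then 1 else 0) := by
    intro n g
    rw [MonoidAlgebra.coeff_single_mul_apply, inv_one, one_mul, hE]
  have h1 : ∀ g : FreeGroup α, (1 : MonoidAlgebra ℤ (FreeGroup α)).coeff g
      = if g = 1 then 1 else 0 := by
    intro g
    simp [MonoidAlgebra.one_def, Finsupp.single_apply, eq_comm]
  have key : (1 - A) * E = 1 - X ^ 2 := by
    have e : (1 - A) * E = E - C σ * (X * E) + C q * (X ^ 2 * E) := by
      simp only [A, sub_mul, one_mul, mul_assoc]; abel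
    rw [e]
    ext n g
    simp only [map_add, map_sub, coeff_C_mul, MonoidAlgebra.coeff_add, MonoidAlgebra.coeff_sub,
      Finsupp.add_apply, Finsupp.sub_apply, hE _ g, coeff_X_pow_mul', coeff_one, coeff_X_pow]
    rcases n with _ | _ | m
    · simp [h1]
    · rw [coeff_succ_X_mul, hσ]; simp
    · have h2 : 2 ≤ m + 1 + 1 := by omega
      rw [coeff_succ_X_mul, hσ, if_pos h2, hq]
      by_cases hg : g = 1
      · subst hg
        by_cases hm : m = 0
        · subst hm; simp [h1]; ring
        · simp [hm, Ne.symm hm]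
      · by_cases hm : m = 0
        · subst hm; simp [h1, hg]
        · simp [hm, hg]
  have : E = star A * (1 - X ^ 2) := by
    rw [← key, ← mul_assoc, star_mul_one_sub A hA0, one_mul]
  rw [this]
  exact (hA.star hA0).mul hP

end free

section prod

variable {G H : Type} [Group G] [Group H]

theorem coeff_inl_mul_inr (u : MonoidAlgebra ℤ G) (v : MonoidAlgebra ℤ H) (g : G) (h : H) :
    (MonoidAlgebra.mapDomainRingHom ℤ (MonoidHom.inl G H) u *
      MonoidAlgebra.mapDomainRingHom ℤ (MonoidHom.inr G H) v).coeff (g, h)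
      = u.coeff g * v.coeff h := by
  classical
  induction u using MonoidAlgebra.induction_linear with
  | zero => simp
  | add u u' h1 h2 =>
    rw [map_add, add_mul, MonoidAlgebra.coeff_add, Finsupp.add_apply, h1, h2]; simp [add_mul]
  | single a r =>
    induction v using MonoidAlgebra.induction_linear with
    | zero => simp
    | add v v' h1 h2 =>
      rw [map_add, mul_add, MonoidAlgebra.coeff_add, Finsupp.add_apply, h1, h2]; simp [mul_add]
    | single b s =>
      simp only [MonoidAlgebra.mapDomainRingHom_apply, MonoidAlgebra.mapDomain_single,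
        MonoidAlgebra.single_mul_single, MonoidAlgebra.coeff_single, Finsupp.single_apply]
      by_cases h1 : a = g <;> by_cases h2 : b = h <;> simp [h1, h2]

theorem isSer_prod {ℓ : G → ℕ} {ℓ' : H → ℕ} {E : PowerSeries (MonoidAlgebra ℤ G)}
    {E' : PowerSeries (MonoidAlgebra ℤ H)} (h : IsSer ℓ E) (h' : IsSer ℓ' E') :
    IsSer (fun g : G × H => ℓ g.1 + ℓ' g.2)
      (PowerSeries.map (MonoidAlgebra.mapDomainRingHom ℤ (MonoidHom.inl G H)) E *
        PowerSeries.map (MonoidAlgebra.mapDomainRingHom ℤ (MonoidHom.inr G H)) E') := by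
  rintro n ⟨g, g'⟩
  rw [coeff_mul, MonoidAlgebra.coeff_sum, Finset.sum_apply']
  simp only [coeff_map, coeff_inl_mul_inr, h _ g, h' _ g']
  by_cases e : ℓ g + ℓ' g' = n
  · rw [if_pos e, Finset.sum_eq_single (ℓ g, ℓ' g')]
    · simp
    · rintro ⟨i, j⟩ _ hne
      by_cases h1 : ℓ g = i
      · have : ℓ' g' ≠ j := fun h2 => hne (by rw [h1, h2])
        simp [this]
      · simp [h1]
    · intro hn
      exact absurd (Finset.HasAntidiagonal.mem_antidiagonal.2 e) hn
  · rw [if_neg e]
    refine Finset.sum_eq_zero fun p hp => ?_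
    have := Finset.HasAntidiagonal.mem_antidiagonal.1 hp
    by_cases h1 : ℓ g = p.1
    · have : ℓ' g' ≠ p.2 := by omega
      simp [this]
    · simp [h1]

end prod

section std

variable (α : Type) [DecidableEq α] [Fintype α]

/-- free basis -/
noncomputable def basisSet : Finset (FreeGroup α) := Finset.univ.image FreeGroup.of

/-- the standard generators of `F × F` -/
noncomputable def stdSet : Finset (FreeGroup α × FreeGroup α) :=
  (Finset.univ.image fun a => (FreeGroup.of a, 1)) ∪ (Finset.univ.image fun a => (1, FreeGroup.of a))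

variable {α}

omit [DecidableEq α] [Fintype α] in
theorem prod_letters (L : List (α × Bool)) :
    (L.map fun x => FreeGroup.mk [x]).prod = FreeGroup.mk L := by
  induction L with
  | nil => rfl
  | cons x L ih => rw [List.map_cons, List.prod_cons, ih, FreeGroup.mul_mk]; rfl

omit [DecidableEq α] [Fintype α] in
theorem letter_cases (x : α × Bool) :
    FreeGroup.mk [x] = FreeGroup.of x.1 ∨ (FreeGroup.mk [x])⁻¹ = FreeGroup.of x.1 := by
  obtain ⟨a, b⟩ := x
  cases b
  · right; rw [FreeGroup.inv_mk]; rfl
  · left; rfl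

theorem closure_of_words {G : Type} [Group G] (S : Finset G)
    (h : ∀ g, ∃ l : List G, (∀ s ∈ l, s ∈ S ∨ s⁻¹ ∈ S) ∧ l.prod = g) :
    Subgroup.closure (S : Set G) = ⊤ := by
  rw [eq_top_iff]
  intro g _
  obtain ⟨l, hl, rfl⟩ := h g
  refine Subgroup.list_prod_mem _ fun s hs => ?_
  rcases hl s hs with h | h
  · exact Subgroup.subset_closure h
  · exact (Subgroup.inv_mem_iff _).1 (Subgroup.subset_closure h)

theorem wordLength_eq {G : Type} [Group G] (S : Finset G) (ℓ : G → ℕ) (h1 : ℓ 1 = 0)
    (hm : ∀ s g, s ∈ S ∨ s⁻¹ ∈ S → ℓ (s * g) ≤ ℓ g + 1)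
    (h : ∀ g, ∃ l : List G, l.length = ℓ g ∧ (∀ s ∈ l, s ∈ S ∨ s⁻¹ ∈ S) ∧ l.prod = g) :
    wordLength S = ℓ := by
  have hS := closure_of_words S fun g => (h g).imp fun l hl => hl.2
  funext g
  apply le_antisymm
  · obtain ⟨l, h2, h3, h4⟩ := h g
    rw [← h2, ← h4]; exact wordLength_le S l h3
  · obtain ⟨l, h2, h3, h4⟩ := exists_word S hS g
    rw [← h2, ← h4]
    clear h2 h4
    induction l with
    | nil => simp [h1]
    | cons s l ih =>
      rw [List.prod_cons, List.length_cons]
      exact (hm s _ (h3 s (by simp))).trans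
        (Nat.succ_le_succ (ih fun t ht => h3 t (by simp [ht])))

theorem basis_words (g : FreeGroup α) : ∃ l : List (FreeGroup α), l.length = g.norm ∧
    (∀ s ∈ l, s ∈ basisSet α ∨ s⁻¹ ∈ basisSet α) ∧ l.prod = g := by
  refine ⟨g.toWord.map fun x => FreeGroup.mk [x], by simp [FreeGroup.norm], ?_,
    by rw [prod_letters, FreeGroup.mk_toWord]⟩
  intro s hs
  obtain ⟨x, _, rfl⟩ := List.mem_map.1 hs
  rcases letter_cases x with h | h
  · left; rw [h]; simp [basisSet]
  · right; rw [h]; simp [basisSet]

theorem basis_norm (s : FreeGroup α) (hs : s ∈ basisSet α ∨ s⁻¹ ∈ basisSet α) : s.norm = 1 := by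
  rcases hs with h | h
  · obtain ⟨a, _, rfl⟩ := Finset.mem_image.1 h
    simp
  · obtain ⟨a, _, e⟩ := Finset.mem_image.1 h
    rw [← FreeGroup.norm_inv_eq, ← e]; simp

theorem wordLength_basis : wordLength (basisSet α) = FreeGroup.norm := by
  refine wordLength_eq _ _ FreeGroup.norm_one (fun s g hs => ?_) basis_words
  have := FreeGroup.norm_mul_le s g
  rw [basis_norm s hs] at this
  omega

theorem std_words (g : FreeGroup α × FreeGroup α) :
    ∃ l : List (FreeGroup α × FreeGroup α), l.length = g.1.norm + g.2.norm ∧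
    (∀ s ∈ l, s ∈ stdSet α ∨ s⁻¹ ∈ stdSet α) ∧ l.prod = g := by
  obtain ⟨l, h1, h2, h3⟩ := basis_words g.1
  obtain ⟨l', h1', h2', h3'⟩ := basis_words g.2
  refine ⟨l.map (MonoidHom.inl _ _) ++ l'.map (MonoidHom.inr _ _), by simp [h1, h1'], ?_, ?_⟩
  · intro s hs
    rcases List.mem_append.1 hs with hs | hs
    · obtain ⟨t, ht, rfl⟩ := List.mem_map.1 hs
      refine (h2 t ht).imp (fun h => ?_) (fun h => ?_)
      · obtain ⟨a, _, e⟩ := Finset.mem_image.1 h
        simp [stdSet, ← e]
      · obtain ⟨a, _, e⟩ := Finset.mem_image.1 h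
        rw [← map_inv, ← e]; simp [stdSet]
    · obtain ⟨t, ht, rfl⟩ := List.mem_map.1 hs
      refine (h2' t ht).imp (fun h => ?_) (fun h => ?_)
      · obtain ⟨a, _, e⟩ := Finset.mem_image.1 h
        simp [stdSet, ← e]
      · obtain ⟨a, _, e⟩ := Finset.mem_image.1 h
        rw [← map_inv, ← e]; simp [stdSet]
  · rw [List.prod_append, ← map_list_prod, ← map_list_prod, h3, h3']
    simp

theorem std_closure : Subgroup.closure (stdSet α : Set (FreeGroup α × FreeGroup α)) = ⊤ :=
  closure_of_words _ fun g => (std_words g).imp fun _ hl => hl.2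

theorem std_norm (s : FreeGroup α × FreeGroup α) (hs : s ∈ stdSet α) :
    s.1.norm + s.2.norm = 1 := by
  rcases Finset.mem_union.1 hs with h | h <;>
  · obtain ⟨a, _, rfl⟩ := Finset.mem_image.1 h
    simp

theorem wordLength_std : wordLength (stdSet α) = fun g => g.1.norm + g.2.norm := by
  refine wordLength_eq _ _ (by simp) (fun s g hs => ?_) std_words
  have h1 := FreeGroup.norm_mul_le s.1 g.1
  have h2 := FreeGroup.norm_mul_le s.2 g.2
  have h3 : s.1.norm + s.2.norm = 1 := by
    rcases hs with h | h
    · exact std_norm s h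
    · have := std_norm _ h
      simpa using this
  simp only [Prod.fst_mul, Prod.snd_mul]
  omega

theorem std_rational : IsRational (completeGrowth (stdSet α)) := by
  have hb : Subgroup.closure (basisSet α : Set (FreeGroup α)) = ⊤ :=
    closure_of_words _ fun g => (basis_words g).imp fun _ hl => hl.2
  have h1 := isSer_completeGrowth _ hb
  rw [wordLength_basis] at h1
  have h2 := isSer_completeGrowth _ (std_closure (α := α))
  rw [wordLength_std] at h2
  rw [h2.unique (isSer_prod h1 h1)]
  exact ((free_rational _ h1).map _).mul ((free_rational _ h1).map _)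

end std

end Pool.Agent.H772Z.CG
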